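import Pool.Agent.H308R3.DM.Api

set_option autoImplicit false

namespace Pool.Agent.H308R3.DM

open Finset
open scoped Classical BigOperators

noncomputable section

namespace RingProof

theorem chain {H : Finset Pt} {B w : ℝ} (hw : 0 ≤ w) (c : ℕ → Pt) (Dk : ℕ → Finset Pt)
    (h : ∀ k, ∃ n : ℕ, (n : ℝ) ≤ B ∧ Reach H (Dk k) (c k) (c (k + 1)) w n) :
    ∀ N : ℕ, ∃ n : ℕ, (n : ℝ) ≤ N * B ∧
      Reach H ((range N).biUnion Dk) (c 0) (c N) (w ^ N) n := by
  intro N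
  induction N with
  | zero => exact ⟨0, by simp, by simpa using Reach.refl H (c 0)⟩
  | succ N ih =>
    obtain ⟨n1, h1, h2⟩ := ih
    obtain ⟨n2, h3, h4⟩ := h N
    refine ⟨n1 + n2, ?_, ?_⟩
    · push_cast
      linarith
    · have h5 := Reach.comp hw h2 h4
      rw [← pow_succ] at h5
      refine h5.mono (Finset.Subset.refl _) ?_ le_rfl
      rw [Finset.range_add_one, Finset.biUnion_insert, Finset.union_comm]

/-- the centres along the top side -/
def ct (ρ m k : ℕ) : Pt := (min (-(ρ : ℤ) + 2 * ((m * k : ℕ) : ℤ)) ρ, (ρ : ℤ))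

theorem mem_sq {c x : Pt} {m : ℕ} : x ∈ sq c m ↔
    (c.1 - m ≤ x.1 ∧ x.1 ≤ c.1 + m) ∧ (c.2 - m ≤ x.2 ∧ x.2 ≤ c.2 + m) ∧ (x.1 - x.2) % 2 = 0 := by
  unfold sq
  rw [Finset.mem_filter, Finset.mem_product, Finset.mem_Icc, Finset.mem_Icc]
  tauto

/-- the strip covered by the tour of the top side -/
def strip (ρ m : ℕ) : Finset Pt :=
  (sq 0 (4 * m + ρ)).filter fun x => (ρ : ℤ) - 3 * m ≤ x.2 ∧ x.2 ≤ ρ + 3 * m ∧
    -(ρ : ℤ) - 3 * m ≤ x.1 ∧ x.1 ≤ ρ + 3 * m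

theorem strip_cover (ρ m : ℕ) (hm : 1 ≤ m) :
    strip ρ m ⊆ (range (ρ / m + 2)).biUnion fun k => sq (ct ρ m k) (3 * m) := by
  intro x hx
  unfold strip at hx
  rw [Finset.mem_filter, mem_sq] at hx
  obtain ⟨⟨_, _, hpar⟩, h1, h2, h3, h4⟩ := hx
  rw [Finset.mem_biUnion]
  have hK1 : m * (ρ / m) ≤ ρ := Nat.mul_div_le ρ m
  have hK2 : ρ < m * (ρ / m + 1) := Nat.lt_mul_div_succ ρ (by omega)
  rcases le_or_gt x.1 (-(ρ : ℤ)) with hx1 | hx1
  · refine ⟨0, by simp, ?_⟩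
    rw [mem_sq]
    unfold ct
    simp only [mul_zero, Nat.cast_zero, add_zero]
    refine ⟨⟨?_, ?_⟩, ⟨?_, ?_⟩, hpar⟩ <;> push_cast <;> omega
  · rcases le_or_gt x.1 (ρ : ℤ) with hx2 | hx2
    · set y : ℕ := (x.1 + ρ).toNat with hy
      have hy' : (y : ℤ) = x.1 + ρ := Int.toNat_of_nonneg (by omega)
      set i := y / (2 * m) with hi
      have hi1 : 2 * m * i ≤ y := Nat.mul_div_le y (2 * m)
      have hi2 : y < 2 * m * (i + 1) := Nat.lt_mul_div_succ y (by omega)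
      have hmi : m * i ≤ ρ := by
        have h5 : 2 * m * i = 2 * (m * i) := by ring
        omega
      have hiK : i ≤ ρ / m := (Nat.le_div_iff_mul_le (by omega)).2 (by rw [mul_comm]; exact hmi)
      refine ⟨i, Finset.mem_range.2 (by omega), ?_⟩
      rw [mem_sq]
      unfold ct
      have h5 : 2 * m * i = 2 * (m * i) := by ring
      have h6 : 2 * m * (i + 1) = 2 * (m * i) + 2 * m := by ring
      rw [h5] at hi1
      rw [h6] at hi2
      generalize m * i = z at *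
      refine ⟨⟨?_, ?_⟩, ⟨?_, ?_⟩, hpar⟩ <;> push_cast <;> (try simp only) <;> omega
    · refine ⟨ρ / m + 1, by simp, ?_⟩
      rw [mem_sq]
      unfold ct
      generalize m * (ρ / m + 1) = z at *
      refine ⟨⟨?_, ?_⟩, ⟨?_, ?_⟩, hpar⟩ <;> push_cast <;> (try simp only) <;> omega

theorem ct_zero (ρ m : ℕ) : ct ρ m 0 = (-(ρ : ℤ), (ρ : ℤ)) := by
  unfold ct
  simp only [mul_zero, Nat.cast_zero, add_zero]
  congr 1
  omega

theorem ct_last (ρ m : ℕ) (hm : 1 ≤ m) : ct ρ m (ρ / m + 2) = ((ρ : ℤ), (ρ : ℤ)) := by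
  have hK2 : ρ < m * (ρ / m + 1) := Nat.lt_mul_div_succ ρ (by omega)
  have h3 : m * (ρ / m + 2) = m * (ρ / m + 1) + m := by ring
  unfold ct
  rw [h3]
  generalize m * (ρ / m + 1) = z at *
  congr 1
  push_cast
  omega

theorem side {C : ℝ} (hC : ∀ m : ℕ, 1 ≤ m → ∀ c x y : Pt, (c.1 - c.2) % 2 = 0 →
  x ∈ sq c (3 * m) → y ∈ sq c (3 * m) →
  ∃ n : ℕ, (n : ℝ) ≤ C * (m : ℝ) ^ 3 ∧
    Reach (sq c (4 * m)) (sq c (3 * m)) x y (Real.exp (-C * (1 + Real.log m) ^ 3)) n)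
    (ρ m : ℕ) (hm : 1 ≤ m) : ∃ n : ℕ, (n : ℝ) ≤ ((ρ / m + 2 : ℕ) : ℝ) * (C * (m : ℝ) ^ 3) ∧
      Reach (sq 0 (4 * m + ρ)) (strip ρ m) (-(ρ : ℤ), (ρ : ℤ)) ((ρ : ℤ), (ρ : ℤ))
        (Real.exp (-C * (1 + Real.log m) ^ 3) ^ (ρ / m + 2)) n := by
  have h := chain (H := sq 0 (4 * m + ρ)) (B := C * (m : ℝ) ^ 3)
    (w := Real.exp (-C * (1 + Real.log m) ^ 3)) (Real.exp_pos _).le (ct ρ m)
    (fun k => sq (ct ρ m k) (3 * m)) ?_ (ρ / m + 2)
  · obtain ⟨n, h1, h2⟩ := h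
    refine ⟨n, h1, ?_⟩
    rw [ct_zero, ct_last ρ m hm] at h2
    exact h2.mono (Finset.Subset.refl _) (strip_cover ρ m hm) le_rfl
  · intro k
    have hk1 : m * (k + 1) = m * k + m := by ring
    have g1 : ((ct ρ m k).1 - (ct ρ m k).2) % 2 = 0 := by
      unfold ct
      generalize m * k = z at *
      simp only
      omega
    have g2 : ct ρ m k ∈ sq (ct ρ m k) (3 * m) := by
      rw [mem_sq]
      unfold ct
      generalize m * k = z at *
      refine ⟨⟨?_, ?_⟩, ⟨?_, ?_⟩, ?_⟩ <;> push_cast <;> (try simp only) <;> omega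
    have g3 : ct ρ m (k + 1) ∈ sq (ct ρ m k) (3 * m) := by
      rw [mem_sq]
      unfold ct
      rw [hk1]
      generalize m * k = z at *
      refine ⟨⟨?_, ?_⟩, ⟨?_, ?_⟩, ?_⟩ <;> push_cast <;> (try simp only) <;> omega
    obtain ⟨n, h1, h2⟩ := hC m hm (ct ρ m k) (ct ρ m k) (ct ρ m (k + 1)) g1 g2 g3
    refine ⟨n, h1, h2.mono ?_ (Finset.Subset.refl _) le_rfl⟩
    intro x hx
    rw [mem_sq] at hx ⊢
    unfold ct at hx
    generalize m * k = z at *
    obtain ⟨⟨a1, a2⟩, ⟨a3, a4⟩, a5⟩ := hx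
    simp only at a1 a2 a3 a4
    push_cast at a1 a2 a3 a4
    refine ⟨⟨?_, ?_⟩, ⟨?_, ?_⟩, a5⟩ <;> push_cast <;> simp only [Prod.fst_zero, Prod.snd_zero] <;>
      omega

theorem sq_rot (r : ℕ) : (sq 0 r).image rot90 ⊆ sq 0 r := by
  intro x hx
  rw [Finset.mem_image] at hx
  obtain ⟨y, hy, rfl⟩ := hx
  rw [mem_sq] at hy ⊢
  unfold rot90
  simp only [Prod.fst_zero, Prod.snd_zero] at hy ⊢
  omega

end RingProof

open RingProof in
theorem taskRing : TaskBox → TaskRing := by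
  rintro ⟨C, hC0, hC⟩
  refine ⟨4 * C, by positivity, ?_⟩
  intro r m hm hmr
  obtain ⟨ρ, rfl⟩ := Nat.exists_eq_add_of_le hmr
  obtain ⟨n, h1, h2⟩ := side hC ρ m hm
  set w0 := Real.exp (-C * (1 + Real.log m) ^ 3) with hw0
  set N := ρ / m + 2 with hN
  have hwN : 0 ≤ w0 ^ N := by positivity
  have hH := sq_rot (4 * m + ρ)
  have t1 := h2.rot.mono hH (Finset.Subset.refl _) le_rfl
  have t2 := t1.rot.mono hH (Finset.Subset.refl _) le_rfl
  have t3 := t2.rot.mono hH (Finset.Subset.refl _) le_rfl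
  have e1 : rot90 (-(ρ : ℤ), (ρ : ℤ)) = ((ρ : ℤ), (ρ : ℤ)) := by simp [rot90]
  have e2 : rot90 ((ρ : ℤ), (ρ : ℤ)) = ((ρ : ℤ), -(ρ : ℤ)) := by simp [rot90]
  have e3 : rot90 ((ρ : ℤ), -(ρ : ℤ)) = (-(ρ : ℤ), -(ρ : ℤ)) := by simp [rot90]
  have e4 : rot90 (-(ρ : ℤ), -(ρ : ℤ)) = (-(ρ : ℤ), (ρ : ℤ)) := by simp [rot90]
  rw [e1, e2] at t1
  rw [e1, e2, e3] at t2
  rw [e1, e2, e3, e4] at t3
  have u1 := Reach.comp hwN h2 t1
  have u2 := Reach.comp hwN u1 t2
  have u3 := Reach.comp hwN u2 t3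
  refine ⟨n + n + n + n, ?_, ?_⟩
  · have hm1 : (1 : ℝ) ≤ m := by exact_mod_cast hm
    have h5 : ((ρ / m + 2 : ℕ) : ℝ) * m ≤ ((4 * m + ρ : ℕ) : ℝ) := by
      have h6 : (ρ / m + 2) * m ≤ 4 * m + ρ := by
        have := Nat.div_mul_le_self ρ m
        rw [add_mul]
        omega
      exact_mod_cast h6
    have h7 : (n : ℝ) ≤ C * ((4 * m + ρ : ℕ) : ℝ) * (m : ℝ) ^ 2 := by
      refine h1.trans ?_
      calc ((N : ℕ) : ℝ) * (C * (m : ℝ) ^ 3) = C * (((ρ / m + 2 : ℕ) : ℝ) * m) * (m : ℝ) ^ 2 := by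
            rw [hN]; ring
        _ ≤ C * ((4 * m + ρ : ℕ) : ℝ) * (m : ℝ) ^ 2 := by gcongr
    push_cast at h7 ⊢
    linarith
  · have hsub : ringS (4 * m + ρ) m (7 * m) ⊆ strip ρ m ∪ (strip ρ m).image rot90 ∪
        ((strip ρ m).image rot90).image rot90 ∪
        (((strip ρ m).image rot90).image rot90).image rot90 := by
      intro x hx
      unfold ringS at hx
      rw [Finset.mem_filter, mem_sq] at hx
      obtain ⟨⟨⟨a1, a2⟩, ⟨a3, a4⟩, a5⟩, a6, a7⟩ := hx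
      simp only [Prod.fst_zero, Prod.snd_zero] at a1 a2 a3 a4
      push_cast at a1 a2 a3 a4 a6 a7
      simp only [Finset.mem_union, Finset.mem_image]
      have hst : ∀ y : Pt, y ∈ strip ρ m ↔ ((-(4 * (m : ℤ) + ρ) ≤ y.1 ∧ y.1 ≤ 4 * m + ρ) ∧
          (-(4 * (m : ℤ) + ρ) ≤ y.2 ∧ y.2 ≤ 4 * m + ρ) ∧ (y.1 - y.2) % 2 = 0) ∧
          (ρ : ℤ) - 3 * m ≤ y.2 ∧ y.2 ≤ ρ + 3 * m ∧
          -(ρ : ℤ) - 3 * m ≤ y.1 ∧ y.1 ≤ ρ + 3 * m := by
        intro y
        unfold strip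
        rw [Finset.mem_filter, mem_sq]
        simp only [Prod.fst_zero, Prod.snd_zero]
        push_cast
        constructor
        · rintro ⟨⟨⟨b1, b2⟩, ⟨b3, b4⟩, b5⟩, b6⟩
          exact ⟨⟨⟨by omega, by omega⟩, ⟨by omega, by omega⟩, b5⟩, b6⟩
        · rintro ⟨⟨⟨b1, b2⟩, ⟨b3, b4⟩, b5⟩, b6⟩
          exact ⟨⟨⟨by omega, by omega⟩, ⟨by omega, by omega⟩, b5⟩, b6⟩
      have ha1 := abs_le.1 (le_refl |x.1|)
      have ha2 := abs_le.1 (le_refl |x.2|)
      rcases le_total |x.1| |x.2| with hc | hc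
      · rw [max_eq_right hc] at a6 a7
        rcases le_total 0 x.2 with hs | hs
        · -- top
          left; left; left
          rw [hst]
          rw [abs_of_nonneg hs] at a6 a7 hc
          have := abs_le.1 hc
          refine ⟨⟨⟨by omega, by omega⟩, ⟨by omega, by omega⟩, a5⟩, by omega, by omega, by omega,
            by omega⟩
        · -- bottom
          left; right
          refine ⟨(-x.2, x.1), ⟨(-x.1, -x.2), ?_, by simp [rot90]⟩, by simp [rot90]⟩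
          rw [hst]
          rw [abs_of_nonpos hs] at a6 a7 hc
          have := abs_le.1 hc
          simp only
          refine ⟨⟨⟨by omega, by omega⟩, ⟨by omega, by omega⟩, by omega⟩, by omega, by omega,
            by omega, by omega⟩
      · rw [max_eq_left hc] at a6 a7
        rcases le_total 0 x.1 with hs | hs
        · -- right
          left; left; right
          refine ⟨(-x.2, x.1), ?_, by simp [rot90]⟩
          rw [hst]
          rw [abs_of_nonneg hs] at a6 a7 hc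
          have := abs_le.1 hc
          simp only
          refine ⟨⟨⟨by omega, by omega⟩, ⟨by omega, by omega⟩, by omega⟩, by omega, by omega,
            by omega, by omega⟩
        · -- left
          right
          refine ⟨(-x.2, x.1), ⟨(-x.1, -x.2), ⟨(x.2, -x.1), ?_, by simp [rot90]⟩,
            by simp [rot90]⟩, by simp [rot90]⟩
          rw [hst]
          rw [abs_of_nonpos hs] at a6 a7 hc
          have := abs_le.1 hc
          simp only
          refine ⟨⟨⟨by omega, by omega⟩, ⟨by omega, by omega⟩, by omega⟩, by omega, by omega,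
            by omega, by omega⟩
    have hw : Real.exp (-(4 * C) * (((4 * m + ρ : ℕ) : ℝ) / m) * (1 + Real.log m) ^ 3) ≤
        w0 ^ N * w0 ^ N * w0 ^ N * w0 ^ N := by
      rw [← pow_add, ← pow_add, ← pow_add, hw0, ← Real.exp_nat_mul]
      apply Real.exp_le_exp.2
      have hm1 : (1 : ℝ) ≤ m := by exact_mod_cast hm
      have hL : 0 ≤ (1 + Real.log m) ^ 3 := by
        have := Real.log_nonneg hm1
        positivity
      have h5 : (N : ℝ) ≤ ((4 * m + ρ : ℕ) : ℝ) / m := by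
        rw [le_div_iff₀ (by linarith)]
        have h6 : (ρ / m + 2) * m ≤ 4 * m + ρ := by
          have := Nat.div_mul_le_self ρ m
          rw [add_mul]
          omega
        rw [hN]
        exact_mod_cast h6
      have h8 : (N : ℝ) * (C * (1 + Real.log m) ^ 3) ≤
          (((4 * m + ρ : ℕ) : ℝ) / m) * (C * (1 + Real.log m) ^ 3) := by gcongr
      push_cast at h8 ⊢
      nlinarith
    have e5 : (-(((4 * m + ρ : ℕ) : ℤ) - 4 * (m : ℤ)), (((4 * m + ρ : ℕ) : ℤ) - 4 * (m : ℤ))) =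
        ((-(ρ : ℤ), (ρ : ℤ)) : Pt) := by
      push_cast
      congr 1 <;> ring
    rw [e5]
    exact u3.mono (Finset.Subset.refl _) hsub hw

end

end Pool.Agent.H308R3.DM
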